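import Mathlib

set_option autoImplicit false

namespace Pool.Agent.Results.MP_47dce7_gt.Rem

open Set Filter Topology

/-- Selectively highly divergent spaces. -/
def SHD (X : Type*) [TopologicalSpace X] : Prop :=
  ∀ U : ℕ → Set X, (∀ n, IsOpen (U n) ∧ (U n).Nonempty) → ∃ x : ℕ → X, (∀ n, x n ∈ U n) ∧
    ∀ φ : ℕ → ℕ, StrictMono φ → ∀ p : X, ¬ Tendsto (x ∘ φ) atTop (𝓝 p)

/-- The Stone-Cech remainder. -/
def Rem (X : Type*) [TopologicalSpace X] : Set (StoneCech X) := (range stoneCechUnit)ᶜ

variable {X : Type*} [TopologicalSpace X]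

lemma ext01 {g : X → ℝ} (hg : Continuous g) (h : ∀ x, g x ∈ Icc (0 : ℝ) 1) :
    ∃ G : StoneCech X → ℝ, Continuous G ∧ (∀ y, 0 ≤ G y) ∧ ∀ x, G (stoneCechUnit x) = g x := by
  have hc : Continuous fun x => (⟨g x, h x⟩ : Icc (0 : ℝ) 1) := hg.subtype_mk _
  exact ⟨fun y => (stoneCechExtend hc y).1, continuous_subtype_val.comp (continuous_stoneCechExtend hc),
    fun y => (stoneCechExtend hc y).2.1, fun x => by simp only [stoneCechExtend_stoneCechUnit]⟩

lemma fn {κ : Type*} {e : X → κ → ℝ} (he : IsClosedEmbedding e) {p : StoneCech X} (hp : p ∈ Rem X) :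
    ∃ f : StoneCech X → ℝ, Continuous f ∧ (∀ y, 0 ≤ f y) ∧ f p = 0 ∧ ∀ x, 0 < f (stoneCechUnit x) := by
  have hc : ∀ i, Continuous fun x => e x i := fun i => (continuous_apply i).comp he.continuous
  choose G h1 h2 h3 using fun i => ext01 (g := fun x => (1 + |e x i|)⁻¹)
    ((continuous_const.add (hc i).abs).inv₀ fun x => (by positivity : 1 + |e x i| ≠ 0))
    fun x => ⟨by positivity, inv_le_one_of_one_le₀ (by linarith [abs_nonneg (e x i)])⟩
  by_contra hh
  push Not at hh
  have pos : ∀ i, 0 < G i p := fun i => (h2 i p).lt_of_ne' fun h0 => by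
    obtain ⟨x, hx⟩ := hh _ (h1 i) (h2 i) h0
    rw [h3] at hx
    exact absurd hx (not_le.2 (by positivity))
  haveI : (comap stoneCechUnit (𝓝 p)).NeBot := 
    comap_neBot_iff_frequently.2 (mem_closure_iff_frequently.1 (denseRange_stoneCechUnit p))
  let u := Ultrafilter.of (comap stoneCechUnit (𝓝 p))
  have hu : Tendsto stoneCechUnit u (𝓝 p) := tendsto_iff_comap.2 (Ultrafilter.of_le _)
  have : ∀ i, ∃ q, Tendsto (fun x => e x i) u (𝓝 q) := by
    intro i
    have h4 := (((h1 i).tendsto p).comp hu).eventually (lt_mem_nhds (half_lt_self (pos i)))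
    obtain ⟨q, -, hq⟩ := (isCompact_Icc (a := -(G i p / 2)⁻¹) (b := (G i p / 2)⁻¹)).ultrafilter_le_nhds
      (u.map fun x => e x i) (by
        rw [le_principal_iff]
        refine h4.mono fun x hx => ?_
        simp only [Function.comp, h3] at hx
        have := (lt_inv_comm₀ (half_pos (pos i)) (by positivity)).1 hx
        exact abs_le.1 (by linarith))
    exact ⟨q, hq⟩
  choose q hq using this
  have h5 : Tendsto e u (𝓝 q) := tendsto_pi_nhds.2 hq
  obtain ⟨x, rfl⟩ := he.isClosed_range.mem_of_tendsto h5 (Eventually.of_forall fun x => ⟨x, rfl⟩)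
  have h6 : Tendsto id u (𝓝 x) := he.isEmbedding.tendsto_nhds_iff.2 h5
  exact hp ⟨x, tendsto_nhds_unique ((continuous_stoneCechUnit.tendsto x).comp h6) hu⟩

lemma half {Y : Type*} [TopologicalSpace Y] [T2Space Y] [RegularSpace Y] {a b : ℕ → Y} {p : Y}
    (hb : Tendsto b atTop (𝓝 p)) (ha : ∀ n, a n ≠ p) (h : ∀ m n, b m ≠ a n) :
    HasSeparatingCover (range a) (range b) := by
  have : ∀ n, (insert p (range b))ᶜ ∈ 𝓝 (a n) := fun n =>
    hb.isCompact_insert_range.isClosed.isOpen_compl.mem_nhds (by simp [ha n, h])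
  choose C h1 h2 h3 using fun n => exists_mem_nhds_isClosed_subset (this n)
  refine ⟨fun n => interior (C n), ?_, fun n => ⟨isOpen_interior, ?_⟩⟩
  · rintro _ ⟨n, rfl⟩
    exact mem_iUnion.2 ⟨n, mem_interior_iff_mem_nhds.2 (h1 n)⟩
  · exact disjoint_left.2 fun y hy hy' =>
      h3 n (closure_minimal interior_subset (h2 n) hy) (Or.inr hy')

lemma noseq {p : StoneCech X} {f : StoneCech X → ℝ} (hf : Continuous f) (h0 : f p = 0)
    (hpos : ∀ x, 0 < f (stoneCechUnit x)) {x : ℕ → StoneCech X} (hx : Tendsto x atTop (𝓝 p))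
    (hne : ∀ n, x n ≠ p) : False := by
  obtain ⟨φ, -, hφ⟩ := exists_seq_of_forall_finset_exists (fun _ : ℕ => True)
    (fun m n => m < n ∧ x n ≠ x m) fun s _ => by
      have : ∀ᶠ n in atTop, ∀ m ∈ s, m < n ∧ x n ≠ x m := (Finset.eventually_all s).2 fun m _ =>
        (eventually_gt_atTop m).and (hx.eventually_ne (hne m).symm)
      exact this.exists.imp fun n hn => ⟨trivial, hn⟩
  have hm : StrictMono φ := fun m n h => (hφ m n h).1
  have hi : Function.Injective (x ∘ φ) := Function.Injective.of_lt_imp_ne fun m n h => (hφ m n h).2.symm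
  have ta : Tendsto (fun k => x (φ (2 * k))) atTop (𝓝 p) := hx.comp (hm.tendsto_atTop.comp
    (tendsto_atTop_mono (fun k => by simp only [id]; omega) tendsto_id))
  have tb : Tendsto (fun k => x (φ (2 * k + 1))) atTop (𝓝 p) := hx.comp (hm.tendsto_atTop.comp
    (tendsto_atTop_mono (fun k => by simp only [id]; omega) tendsto_id))
  obtain ⟨U, V, hU, hV, h1, h2, hd⟩ := hasSeparatingCovers_iff_separatedNhds.1
    ⟨half tb (fun n => hne _) fun m n e => by have := hi e; omega,
      half ta (fun n => hne _) fun m n e => by have := hi e; omega⟩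
  set a := fun k => x (φ (2 * k))
  let r : ℕ → ℝ := fun k => f (a k) + 1 / ((k : ℝ) + 1)
  have tr : Tendsto r atTop (𝓝 0) := by
    simpa [h0, r] using ((hf.tendsto p).comp ta).add tendsto_one_div_add_atTop_nhds_zero_nat
  choose h z1 z2 z3 using fun k => exists_continuous_zero_one_of_isClosed
    (hU.inter (isOpen_lt hf (continuous_const (y := r k)))).isClosed_compl
    (isClosed_singleton (x := a k)) (disjoint_singleton_right.2 fun hh => hh
      ⟨h1 ⟨k, rfl⟩, (lt_add_of_pos_right _ Nat.one_div_pos_of_nat : f (a k) < r k)⟩)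
  have lf : LocallyFinite fun k => Function.support fun y : X => h k (stoneCechUnit y) := by
    intro y
    refine ⟨{y' | f (stoneCechUnit y) / 2 < f (stoneCechUnit y')}, (isOpen_lt continuous_const
      (hf.comp continuous_stoneCechUnit)).mem_nhds (half_lt_self (hpos y)), ?_⟩
    have := tr.eventually (gt_mem_nhds (half_pos (hpos y)))
    rw [← Nat.cofinite_eq_atTop, eventually_cofinite] at this
    refine this.subset ?_
    rintro k ⟨w, a1, a2⟩ a3
    exact a1 (z1 k fun hh => lt_irrefl _ (hh.2.trans (a3.trans a2)))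
  have hs := continuous_finsum (fun k => (h k).continuous.comp continuous_stoneCechUnit) lf
  have nn : ∀ y : X, 0 ≤ ∑ᶠ k, h k (stoneCechUnit y) := fun y => finsum_nonneg fun k => (z3 k _).1
  obtain ⟨G, g1, -, g3⟩ := ext01 (hs.min (continuous_const (y := (1 : ℝ))))
    fun y => ⟨le_min (nn y) zero_le_one, min_le_right _ _⟩
  have A : ∀ k, 1 ≤ G (a k) := fun k => by
    have : ∀ y, h k y ≤ G y := fun y => denseRange_stoneCechUnit.induction_on y
      (isClosed_le (h k).continuous g1) fun w => by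
        rw [g3]
        exact le_min (single_le_finsum k (lf.point_finite w) fun j => (z3 j _).1) (z3 k _).2
    exact (z2 k rfl).ge.trans (this _)
  have B : ∀ y ∈ V, G y = 0 := fun y hy => by
    refine closure_minimal (t := {y | G y = 0}) ?_ (isClosed_eq g1 continuous_const)
      (denseRange_stoneCechUnit.open_subset_closure_inter hV hy)
    rintro _ ⟨hw, w, rfl⟩
    have : ∀ k, h k (stoneCechUnit w) = 0 := fun k => z1 k fun hh => disjoint_left.1 hd hh.1 hw
    simp [g3, this]
  have c1 := ge_of_tendsto' ((g1.tendsto p).comp ta) A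
  have c2 := le_of_tendsto' ((g1.tendsto p).comp tb) fun k => (B _ (h2 ⟨k, rfl⟩)).le
  linarith

lemma noiso {p : StoneCech X} {f : StoneCech X → ℝ} (hf : Continuous f) (hn : ∀ y, 0 ≤ f y)
    (h0 : f p = 0) (hpos : ∀ x, 0 < f (stoneCechUnit x)) {O : Set (StoneCech X)} (hO : IsOpen O)
    (hp : p ∈ O) (h : ∀ y ∈ O, y ∈ Rem X → y = p) : False := by
  obtain ⟨g, z1, z2, z3⟩ := exists_continuous_zero_one_of_isClosed (isClosed_singleton (x := p))
    hO.isClosed_compl (disjoint_singleton_left.2 fun hh => hh hp)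
  have hc : Continuous fun y => f y + g y := hf.add g.continuous
  choose x hx using fun n : ℕ => denseRange_stoneCechUnit.exists_mem_open
    (isOpen_lt hc (continuous_const (y := 1 / ((n : ℝ) + 1)))) ⟨p, by
      have : g p = 0 := z1 rfl
      simp only [mem_ofPred_eq, h0, this, add_zero]; positivity⟩
  have t : Tendsto (fun n => f (stoneCechUnit (x n)) + g (stoneCechUnit (x n))) atTop (𝓝 0) :=
    squeeze_zero (fun n => add_nonneg (hn _) (z3 _).1) (fun n => (hx n).le)
      tendsto_one_div_add_atTop_nhds_zero_nat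
  refine noseq hf h0 hpos (x := fun n => stoneCechUnit (x n))
    (tendsto_nhds_of_unique_mapClusterPt fun y hy => ?_) fun n e => (hpos (x n)).ne' (e ▸ h0)
  have e : f y + g y = 0 := eq_of_nhds_neBot ((hy.continuousAt_comp hc.continuousAt).clusterPt.mono t)
  have := hn y
  have := (z3 y).1
  refine h y (by_contra fun hh => ?_) ?_
  · have : g y = 1 := z2 hh
    linarith
  · rintro ⟨w, rfl⟩
    linarith [hpos w]

theorem result (X : Type*) [TopologicalSpace X] (κ : Type*) (e : X → κ → ℝ)
    (he : IsClosedEmbedding e) : SHD (Rem X) := by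
  classical
  intro U hU
  have inf : ∀ n, (U n).Infinite := fun n hfin => by
    obtain ⟨p, hp⟩ := (hU n).2
    obtain ⟨f, a, b, c, d⟩ := fn he p.2
    obtain ⟨O, hO, e⟩ := isOpen_induced_iff.1 ((hU n).1.sdiff (hfin.subset (sdiff_subset (t := {p}))).isClosed)
    have hp' : p ∈ Subtype.val ⁻¹' O := e ▸ ⟨hp, fun h => h.2 rfl⟩
    refine noiso a b c d hO hp' fun y hy hy' => ?_
    have : (⟨y, hy'⟩ : Rem X) ∈ U n \ (U n \ {p}) := e ▸ hy
    by_contra hh
    exact this.2 ⟨this.1, fun h => hh (congrArg Subtype.val h)⟩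
  choose pick h1 h2 using fun n (s : Finset (Rem X)) => (inf n).exists_notMem_finset s
  let s : ℕ → Finset (Rem X) := fun n => Nat.rec ∅ (fun n s => insert (pick n s) s) n
  have hs : Monotone s := monotone_nat_of_le_succ fun n => Finset.subset_insert _ _
  have hi : Function.Injective fun n => pick n (s n) := Function.Injective.of_lt_imp_ne fun m n h e =>
    h2 n (s n) (e ▸ hs h (Finset.mem_insert_self _ _))
  refine ⟨fun n => pick n (s n), fun n => h1 _ _, fun φ hφ p hp => ?_⟩
  obtain ⟨f, a, -, c, d⟩ := fn he p.2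
  have : ∀ᶠ n in atTop, pick (φ n) (s (φ n)) ≠ p := by
    rw [← Nat.cofinite_eq_atTop]
    exact (hi.comp hφ.injective).tendsto_cofinite.eventually (eventually_cofinite_ne p)
  obtain ⟨N, hN⟩ := eventually_atTop.1 this
  exact noseq a c d (((continuous_subtype_val.tendsto p).comp hp).comp (tendsto_add_atTop_nat N))
    fun n e => hN (n + N) (by omega) (Subtype.ext e)

end Pool.Agent.Results.MP_47dce7_gt.Rem
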